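import Mathlib
import Pool.Agent.Helper12.Defs
import Pool.Agent.Helper45.Cern.Cent

/-!
Packet 7 (Cern) of helper12's plan for MP_ecbc8a_al.
-/

set_option autoImplicit false
set_option linter.all false

namespace Pool.Agent.Helper45.Cern
open Pool.Agent.Helper12.TwoLen

variable {P : Type*} [Group P]

/-- the subgroup of `2 ^ n`-th powers of elements of a commutative subgroup. -/
def pw (B : Subgroup P) (hBc : ∀ x ∈ B, ∀ y ∈ B, x * y = y * x) (n : ℕ) : Subgroup P where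
  carrier := {y | ∃ x ∈ B, x ^ (2 ^ n : ℕ) = y}
  mul_mem' := by
    rintro _ _ ⟨x, hx, rfl⟩ ⟨y, hy, rfl⟩
    exact ⟨x * y, mul_mem hx hy, (Commute.mul_pow (hBc x hx y hy) _)⟩
  one_mem' := ⟨1, one_mem _, one_pow _⟩
  inv_mem' := by
    rintro _ ⟨x, hx, rfl⟩
    exact ⟨x⁻¹, inv_mem hx, inv_pow _ _⟩

theorem mem_pw {B : Subgroup P} {hBc : ∀ x ∈ B, ∀ y ∈ B, x * y = y * x} {n : ℕ} {y : P} :
    y ∈ pw B hBc n ↔ ∃ x ∈ B, x ^ (2 ^ n : ℕ) = y := Iff.rfl

/-- an element normalising `D` whose square centralises `D`, and which centralises `D[4]`,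
centralises `D`. -/
theorem cent_step (hE : ∀ x : P, E2 x) (D : Subgroup P) (hDc : ∀ x ∈ D, ∀ y ∈ D, x * y = y * x)
    (hdiv : ∀ x ∈ D, ∃ y ∈ D, y * y = x) (p : P) (hp : ∀ x ∈ D, p * x * p⁻¹ ∈ D)
    (h4 : ∀ x ∈ D, x ^ 4 = 1 → p * x = x * p) (h2 : ∀ x ∈ D, p * p * x = x * (p * p)) :
    ∀ x ∈ D, p * x = x * p := by
  classical
  have key : ∀ x ∈ D, (p * x * p⁻¹ * x⁻¹) * (p * x * p⁻¹ * x⁻¹) = 1 := by
    intro x hx
    set y := p * x * p⁻¹ * x⁻¹ with hy
    have hyD : y ∈ D := mul_mem (hp x hx) (inv_mem hx)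
    have hpy : p * y * p⁻¹ = y⁻¹ := by
      have h5 : p * p * x * p⁻¹ * p⁻¹ = x := by rw [h2 x hx]; group
      have h6 := hDc x hx (p * x⁻¹ * p⁻¹) (by
        have := inv_mem (hp x hx)
        have h7 : (p * x * p⁻¹)⁻¹ = p * x⁻¹ * p⁻¹ := by group
        rwa [h7] at this)
      calc p * y * p⁻¹ = (p * p * x * p⁻¹ * p⁻¹) * (p * x⁻¹ * p⁻¹) := by rw [hy]; group
        _ = x * (p * x⁻¹ * p⁻¹) := by rw [h5]
        _ = y⁻¹ := by rw [hy]; group
    have hpyn : ∀ n : ℕ, p * y ^ n * p⁻¹ = (y ^ n)⁻¹ := by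
      intro n
      rw [← conj_pow, hpy, inv_pow]
    obtain ⟨k, hk⟩ := hE y
    have hex : ∃ k, y ^ (2 ^ k : ℕ) = 1 := ⟨k, hk⟩
    have hs := Nat.find_spec hex
    set m := Nat.find hex with hm
    by_contra hne
    have hm2 : 2 ≤ m := by
      by_contra hlt
      push Not at hlt
      interval_cases hmm : m
      · simp at hs; rw [hs] at hne; exact hne (one_mul 1)
      · rw [pow_one, pow_two] at hs
        exact hne hs
    obtain ⟨j, hj⟩ := Nat.exists_eq_add_of_le hm2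
    set w := y ^ (2 ^ j : ℕ) with hw
    have hw4 : w ^ 4 = 1 := by
      have h6 : (2 ^ j : ℕ) * 4 = 2 ^ m := by rw [hj, pow_add]; ring
      rw [hw, ← pow_mul, h6]; exact hs
    have h7 := h4 w (pow_mem hyD _) hw4
    have h8 := hpyn (2 ^ j)
    rw [← hw, h7, mul_inv_cancel_right] at h8
    have h9 : w * w = 1 := by
      rw [mul_eq_one_iff_eq_inv]; exact h8
    have h10 : y ^ (2 ^ (j + 1) : ℕ) = 1 := by
      rw [pow_succ, mul_two, pow_add]; exact h9
    have h11 := Nat.find_min' hex h10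
    omega
  intro x hx
  obtain ⟨z, hz, rfl⟩ := hdiv x hx
  have h1 := key z hz
  have h2' : p * z * p⁻¹ * z⁻¹ ∈ D := mul_mem (hp z hz) (inv_mem hz)
  have h3 := hDc z hz _ h2'
  -- p z z p⁻¹ = (p z p⁻¹)(p z p⁻¹) = (c z)(c z) = c c z z
  have h5 : p * (z * z) * p⁻¹ = z * z := by
    calc p * (z * z) * p⁻¹ = (p * z * p⁻¹ * z⁻¹) * (z * (p * z * p⁻¹ * z⁻¹)) * z := by group
      _ = ((p * z * p⁻¹ * z⁻¹) * (p * z * p⁻¹ * z⁻¹)) * (z * z) := by rw [h3]; group
      _ = z * z := by rw [h1, one_mul]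
  exact mul_inv_eq_iff_eq_mul.1 h5

theorem cent_all (hE : ∀ x : P, E2 x) (D : Subgroup P) (hDc : ∀ x ∈ D, ∀ y ∈ D, x * y = y * x)
    (hdiv : ∀ x ∈ D, ∃ y ∈ D, y * y = x) (p : P) (hp : ∀ x ∈ D, p * x * p⁻¹ ∈ D)
    (h4 : ∀ x ∈ D, x ^ 4 = 1 → p * x = x * p) :
    ∀ x ∈ D, p * x = x * p := by
  have hpn : ∀ n : ℕ, ∀ x ∈ D, p ^ n * x * (p ^ n)⁻¹ ∈ D := by
    intro n
    induction n with
    | zero => intro x hx; simpa using hx
    | succ n ih =>
      intro x hx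
      have := hp _ (ih x hx)
      have h : p * (p ^ n * x * (p ^ n)⁻¹) * p⁻¹ = p ^ (n + 1) * x * (p ^ (n + 1))⁻¹ := by
        rw [pow_succ' p n]; group
      rwa [h] at this
  have hp4 : ∀ n : ℕ, ∀ x ∈ D, x ^ 4 = 1 → p ^ n * x = x * p ^ n := by
    intro n x hx hx4
    exact (Commute.pow_left (h4 x hx hx4) n)
  obtain ⟨k, hk⟩ := hE p
  have main : ∀ j ≤ k, ∀ x ∈ D, p ^ (2 ^ (k - j) : ℕ) * x = x * p ^ (2 ^ (k - j) : ℕ) := by
    intro j
    induction j with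
    | zero => intro _ x hx; rw [Nat.sub_zero, hk]; simp
    | succ j ih =>
      intro hj
      have ih' := ih (by omega)
      refine cent_step hE D hDc hdiv _ (hpn _) (hp4 _) ?_
      intro x hx
      have h1 : p ^ (2 ^ (k - (j + 1)) : ℕ) * p ^ (2 ^ (k - (j + 1)) : ℕ) = p ^ (2 ^ (k - j) : ℕ) := by
        rw [← pow_add, ← two_mul, ← pow_succ']
        congr 2
        omega
      rw [h1]
      exact ih' x hx
  have := main k le_rfl
  simpa using this

/-- DCC from a finite index subgroup with DCC. -/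
theorem dcc_of (D : Subgroup P) [hDn : D.Normal] [hfi : D.FiniteIndex]
    (hD : ∀ H : ℕ → Subgroup P, Antitone H → (∀ n, H n ≤ D) → ∃ N : ℕ, ∀ n ≥ N, H n = H N) :
    ∀ H : ℕ → Subgroup P, Antitone H → ∃ N : ℕ, ∀ n ≥ N, H n = H N := by
  intro H hH
  obtain ⟨N1, hN1⟩ := hD (fun n => H n ⊓ D) (fun a b hab => inf_le_inf_right D (hH hab)) (fun n => inf_le_right)
  haveI : Finite (P ⧸ D) := Subgroup.index_ne_zero_iff_finite.1 hfi.index_ne_zero
  haveI : Finite (Subgroup (P ⧸ D)) := inferInstance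
  obtain ⟨N2, hN2⟩ := WellFoundedLT.antitone_chain_condition (α := Subgroup (P ⧸ D))
    (f := fun n => (H n).map (QuotientGroup.mk' D)) (fun a b hab => Subgroup.map_mono (hH hab))
  refine ⟨max N1 N2, fun n hn => le_antisymm (hH hn) ?_⟩
  intro x hx
  have hn1 : N1 ≤ n := le_trans (le_max_left _ _) hn
  have hn2 : N2 ≤ n := le_trans (le_max_right _ _) hn
  have h1 : QuotientGroup.mk' D x ∈ (H (max N1 N2)).map (QuotientGroup.mk' D) := ⟨x, hx, rfl⟩
  have e1 := hN2 n hn2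
  have e2 := hN2 (max N1 N2) (le_max_right _ _)
  rw [← e2, e1] at h1
  obtain ⟨y, hy, hyx⟩ := h1
  have h2 : y⁻¹ * x ∈ D := QuotientGroup.eq.1 hyx
  have h3 : y⁻¹ * x ∈ H (max N1 N2) := mul_mem (inv_mem (hH hn hy)) hx
  have e3 := hN1 n hn1
  have e4 := hN1 (max N1 N2) (le_max_left _ _)
  have h4 : y⁻¹ * x ∈ H (max N1 N2) ⊓ D := ⟨h3, h2⟩
  have h5 : H (max N1 N2) ⊓ D = H n ⊓ D := by rw [e4, e3]
  rw [h5] at h4
  have := mul_mem hy h4.1
  simpa using this

theorem cern : Cern := by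
  intro P _ hLF hE hfin
  classical
  obtain ⟨B, hBn, hBc, hBC⟩ := exists_self_cent hLF hE hfin
  have hB2 := inv_finite hfin B hBc
  have hBE : ∀ x ∈ B, E2 x := fun x _ => hE x
  have hanti : Antitone (pw B hBc) := by
    refine antitone_nat_of_succ_le ?_
    rintro n _ ⟨x, hx, rfl⟩
    exact ⟨x * x, mul_mem hx hx, by rw [← pow_two, ← pow_mul, ← pow_succ']⟩
  have hle : ∀ n, pw B hBc n ≤ B := by
    rintro n _ ⟨x, hx, rfl⟩
    exact pow_mem hx _
  obtain ⟨N, hN⟩ := dcc_sub B hBc hBE hB2 (pw B hBc) hanti hle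
  set D := pw B hBc N with hD
  have hDB : D ≤ B := hle N
  have hDc : ∀ x ∈ D, ∀ y ∈ D, x * y = y * x := fun x hx y hy => hBc x (hDB hx) y (hDB hy)
  have hdiv : ∀ x ∈ D, ∃ y ∈ D, y * y = x := by
    intro x hx
    rw [← hN (N + 1) (by omega)] at hx
    obtain ⟨z, hz, rfl⟩ := hx
    refine ⟨z ^ (2 ^ N : ℕ), ⟨z, hz, rfl⟩, ?_⟩
    rw [← pow_add, ← two_mul, ← pow_succ']
  haveI hDn : D.Normal := by
    refine ⟨?_⟩
    rintro _ ⟨x, hx, rfl⟩ g
    exact ⟨g * x * g⁻¹, hBn.conj_mem x hx g, by rw [conj_pow]⟩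
  have hD2 : {x : P | x ∈ D ∧ x * x = 1}.Finite := inv_finite hfin D hDc
  -- finite relative index of D in B
  have hrel : ∀ n, (pw B hBc n).relIndex B ≠ 0 := by
    intro n
    induction n with
    | zero =>
      have : pw B hBc 0 = B := by
        apply le_antisymm (hle 0)
        intro x hx
        exact ⟨x, hx, by simp⟩
      rw [this]
      simp
    | succ n ih =>
      have h1 : (pw B hBc (n + 1)).relIndex (pw B hBc n) ≠ 0 := by
        refine relIndex_ne_zero _ _ (fun x hx y hy => hBc x (hle n hx) y (hle n hy)) (fun x _ => hE x)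
          (hB2.subset (fun x hx => ⟨hle n hx.1, hx.2⟩)) ?_
        rintro _ ⟨x, hx, rfl⟩
        exact ⟨x, hx, by rw [← pow_add, ← two_mul, ← pow_succ']⟩
      rw [← Subgroup.relIndex_mul_relIndex (pw B hBc (n + 1)) (pw B hBc n) B (hanti (Nat.le_succ n)) (hle n)]
      exact mul_ne_zero h1 ih
  -- the finite subgroup T
  let T : Subgroup P :=
    { carrier := {x : P | x ∈ B ∧ x ^ (2 ^ (N + 2) : ℕ) = 1}
      mul_mem' := by
        rintro x y ⟨hx, hx2⟩ ⟨hy, hy2⟩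
        refine ⟨mul_mem hx hy, ?_⟩
        have : (x * y) ^ (2 ^ (N + 2) : ℕ) = x ^ (2 ^ (N + 2) : ℕ) * y ^ (2 ^ (N + 2) : ℕ) :=
          Commute.mul_pow (hBc x hx y hy) _
        rw [this, hx2, hy2, one_mul]
      one_mem' := ⟨one_mem _, one_pow _⟩
      inv_mem' := by
        rintro x ⟨hx, hx2⟩
        exact ⟨inv_mem hx, by rw [inv_pow, hx2, inv_one]⟩ }
  have hmemT : ∀ x, x ∈ T ↔ x ∈ B ∧ x ^ (2 ^ (N + 2) : ℕ) = 1 := fun x => Iff.rfl
  haveI hTn : T.Normal := by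
    refine ⟨fun x hx g => ?_⟩
    exact ⟨hBn.conj_mem x hx.1 g, by rw [conj_pow, hx.2]; group⟩
  haveI hTf : Finite T := by
    have h : (T : Set P).Finite := finite_pow_sub B hBc hB2 (N + 2)
    exact h
  haveI hAf : Finite (MulAut T) := Finite.of_injective (fun f : MulAut T => (f : T → T)) (fun f g h => by
    ext x; exact congrArg Subtype.val (congrFun h x))
  have hker : (MulAut.conjNormal (H := T) : P →* MulAut T).ker ≤ B := by
    intro p hp
    rw [MonoidHom.mem_ker] at hp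
    have hpT : ∀ t ∈ T, p * t = t * p := by
      intro t ht
      have h1 := MulAut.conjNormal_apply (H := T) p ⟨t, ht⟩
      rw [hp] at h1
      simp only [MulAut.one_apply] at h1
      exact (mul_inv_eq_iff_eq_mul.1 h1.symm)
    have hpD : ∀ x ∈ D, p * x = x * p := by
      refine cent_all hE D hDc hdiv p (fun x hx => hDn.conj_mem x hx p) ?_
      intro x hx hx4
      apply hpT
      refine ⟨hDB hx, ?_⟩
      have : (2 ^ (N + 2) : ℕ) = 4 * 2 ^ N := by rw [pow_add]; ring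
      rw [this, pow_mul, hx4, one_pow]
    apply hBC
    intro b hb
    -- b = d * t
    have hbD : b ^ (2 ^ N : ℕ) ∈ D := ⟨b, hb, rfl⟩
    have hdivN : ∀ n : ℕ, ∀ x ∈ D, ∃ y ∈ D, y ^ (2 ^ n : ℕ) = x := by
      intro n
      induction n with
      | zero => intro x hx; exact ⟨x, hx, by simp⟩
      | succ n ih =>
        intro x hx
        obtain ⟨y, hy, hyx⟩ := ih x hx
        obtain ⟨z, hz, hzy⟩ := hdiv y hy
        exact ⟨z, hz, by rw [pow_succ', pow_mul, pow_two, hzy, hyx]⟩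
    obtain ⟨d, hd, hdb⟩ := hdivN N _ hbD
    have ht : d⁻¹ * b ∈ T := by
      refine ⟨mul_mem (inv_mem (hDB hd)) hb, ?_⟩
      have h1 : (d⁻¹ * b) ^ (2 ^ N : ℕ) = 1 := by
        have : (d⁻¹ * b) ^ (2 ^ N : ℕ) = d⁻¹ ^ (2 ^ N : ℕ) * b ^ (2 ^ N : ℕ) :=
          Commute.mul_pow (hBc _ (inv_mem (hDB hd)) b hb) _
        rw [this, inv_pow, hdb, inv_mul_cancel]
      rw [pow_add, pow_mul, h1, one_pow]
    have h1 := hpT _ ht
    have h2 := hpD d hd
    calc p * b = (p * d) * (d⁻¹ * b) := by group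
      _ = d * (p * (d⁻¹ * b)) := by rw [h2]; group
      _ = d * ((d⁻¹ * b) * p) := by rw [h1]
      _ = b * p := by group
  haveI hBfi : B.FiniteIndex := by
    haveI : (MulAut.conjNormal (H := T) : P →* MulAut T).ker.FiniteIndex := Subgroup.finiteIndex_ker _
    exact Subgroup.finiteIndex_of_le hker
  haveI hDfi : D.FiniteIndex := by
    refine ⟨?_⟩
    rw [← Subgroup.relIndex_mul_index hDB]
    exact mul_ne_zero (hrel N) hBfi.index_ne_zero
  refine ⟨⟨D, hDn, hDfi, hDc, hdiv, hD2⟩, ?_⟩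
  exact dcc_of D (fun H hH hHD => dcc_sub D hDc (fun x _ => hE x) hD2 H hH hHD)

end Pool.Agent.Helper45.Cern
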