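import Mathlib
import Pool.Agent.Helper62.AC.Defs

set_option autoImplicit false
set_option linter.all false

open Set Topology TopologicalSpace Filter

namespace Pool.Agent.Helper45.ACD1
open Pool.Agent.Helper62.AC

/-- concatenation of arcs -/
theorem concat {Y : Type*} [TopologicalSpace Y] [T2Space Y] {A B : Set Y} {a b c : Y}
    (hA : ArcBetween A a b) (hB : ArcBetween B b c) (hAB : A ∩ B = {b}) :
    ArcBetween (A ∪ B) a c := by
  obtain ⟨γ₁, hc1, hi1, hr1, h10, h11⟩ := hA.exists_map
  obtain ⟨γ₂, hc2, hi2, hr2, h20, h21⟩ := hB.exists_map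
  let p1 : Path a b := ⟨⟨γ₁, hc1⟩, h10, h11⟩
  let p2 : Path b c := ⟨⟨γ₂, hc2⟩, h20, h21⟩
  have hp1 : range p1 = A := hr1
  have hp2 : range p2 = B := hr2
  refine arcBetween_of_map (p1.trans p2) (p1.trans p2).continuous ?_ ?_ (p1.trans p2).source (p1.trans p2).target
  · intro s t hst
    rw [Path.trans_apply, Path.trans_apply] at hst
    have hmem : ∀ u v : unitInterval, p1 u = p2 v → u = 1 ∧ v = 0 := by
      intro u v huv
      have h1 : p1 u ∈ A ∩ B := ⟨hp1 ▸ mem_range_self u, by rw [huv, ← hp2]; exact mem_range_self v⟩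
      rw [hAB] at h1
      constructor
      · apply hi1
        show p1 u = p1 1
        rw [p1.target]; exact h1
      · apply hi2
        show p2 v = p2 0
        rw [p2.source, ← huv]; exact h1
    split_ifs at hst with h1 h2 h2
    · have := hi1 hst
      have h3 := congrArg Subtype.val this
      simp only at h3
      exact Subtype.ext (by linarith)
    · obtain ⟨h3, h4⟩ := hmem _ _ hst
      have h5 := congrArg Subtype.val h4
      simp at h5
      exfalso; apply h2; linarith
    · obtain ⟨h3, h4⟩ := hmem _ _ hst.symm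
      have h5 := congrArg Subtype.val h4
      simp at h5
      exfalso; apply h1; linarith
    · have := hi2 hst
      have h3 := congrArg Subtype.val this
      simp only at h3
      exact Subtype.ext (by linarith)
  · rw [Path.trans_range, hp1, hp2]

/-- shift of vertex codes -/
def sh (a u : ℕ) : ℕ := if u < 6 * a then u else u + 6

theorem src_lt (m e : ℕ) (h : e < 9 * m + 3) : src m e < 6 * m + 2 := by
  unfold src vP vQ; split_ifs <;> omega

theorem dst_lt (m e : ℕ) (h : e < 9 * m + 3) : dst m e < 6 * m + 2 := by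
  unfold dst vP vQ; split_ifs <;> omega

theorem src_low (m a e : ℕ) (ha : a ≤ m) (h : e < 9 * a) : sh a (src m e) = src (m + 1) e := by
  unfold sh src vP vQ; split_ifs <;> omega

theorem dst_low (m a e : ℕ) (ha : a ≤ m) (h : e < 9 * a) : sh a (dst m e) = dst (m + 1) e := by
  unfold sh dst vP vQ; split_ifs <;> omega

theorem src_high (m a e : ℕ) (ha : a ≤ m) (h : 9 * a + 3 ≤ e) (h2 : e < 9 * m + 3) :
    sh a (src m e) = src (m + 1) (e + 9) := by
  unfold sh src vP vQ; split_ifs <;> omega

theorem dst_high (m a e : ℕ) (ha : a ≤ m) (h : 9 * a + 3 ≤ e) (h2 : e < 9 * m + 3) :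
    sh a (dst m e) = dst (m + 1) (e + 9) := by
  unfold sh dst vP vQ; split_ifs <;> omega

theorem src_mid (m a e : ℕ) (ha : a ≤ m) (h : 9 * a ≤ e) (h2 : e < 9 * a + 3) :
    sh a (src m e) = src (m + 1) e := by
  unfold sh src vP vQ; split_ifs <;> omega

theorem dst_mid (m a e : ℕ) (ha : a ≤ m) (h : 9 * a ≤ e) (h2 : e < 9 * a + 3) :
    sh a (dst m e) = dst (m + 1) (e + 9) := by
  unfold sh dst vP vQ; split_ifs <;> omega

theorem m1 (m a e : ℕ) (ha : a ≤ m) (h : 9 * a ≤ e) (h2 : e < 9 * a + 3) :
    dst (m + 1) e = e - 3 * a := by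
  unfold dst vP vQ; split_ifs <;> omega

theorem m2 (m a e : ℕ) (ha : a ≤ m) (h : 9 * a ≤ e) (h2 : e < 9 * a + 3) :
    src (m + 1) (e + 3) = e - 3 * a := by
  unfold src vP vQ; split_ifs <;> omega

theorem m3 (m a e : ℕ) (ha : a ≤ m) (h : 9 * a ≤ e) (h2 : e < 9 * a + 3) :
    dst (m + 1) (e + 3) = e - 3 * a + 3 := by
  have h1 : (e + 3) / 9 = a := by omega
  have h3 : (e + 3) % 9 = e - 9 * a + 3 := by omega
  have h4 : (e + 3) % 3 = e - 9 * a := by omega
  unfold dst vP vQ
  rw [h1, h3, h4]
  rw [if_neg (by omega), if_pos (by omega), if_neg (by omega)]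
  obtain ⟨c, rfl⟩ := Nat.exists_eq_add_of_le h
  have e1 : 9 * a + c - 9 * a = c := by omega
  have e2 : 9 * a + c - 3 * a = 6 * a + c := by omega
  rw [e1, e2]
  omega

theorem m4 (m a e : ℕ) (ha : a ≤ m) (h : 9 * a ≤ e) (h2 : e < 9 * a + 3) :
    src (m + 1) (e + 9) = e - 3 * a + 3 := by
  unfold src vP vQ; split_ifs <;> omega

/-- arcs ending in `Q a c` -/
theorem endQ (m a e o : ℕ) (ha : a ≤ m) (h : 9 * a ≤ e) (h2 : e < 9 * a + 3)
    (ho : o < 9 * (m + 1) + 3) (hw : src (m + 1) o = e - 3 * a ∨ dst (m + 1) o = e - 3 * a) :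
    o = e ∨ o = e + 3 ∨ (9 * a + 6 ≤ o ∧ o < 9 * a + 9) := by
  revert hw
  unfold src dst vP vQ; split_ifs <;> omega

/-- arcs ending in `P (a+1) c` -/
theorem endP (m a e o : ℕ) (ha : a ≤ m) (h : 9 * a ≤ e) (h2 : e < 9 * a + 3)
    (ho : o < 9 * (m + 1) + 3) (hw : src (m + 1) o = e - 3 * a + 3 ∨ dst (m + 1) o = e - 3 * a + 3) :
    o = e + 3 ∨ o = e + 9 ∨ (9 * a + 6 ≤ o ∧ o < 9 * a + 9) := by
  revert hw
  unfold src dst vP vQ; split_ifs <;> omega

/-- the constituents of a new arc -/
def K (a e o : ℕ) : Prop :=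
  (e < 9 * a ∧ o = e) ∨ ((9 * a ≤ e ∧ e < 9 * a + 3) ∧ (o = e ∨ o = e + 3 ∨ o = e + 9)) ∨
    (9 * a + 3 ≤ e ∧ o = e + 9)

theorem K_lt (m a e o : ℕ) (ha : a ≤ m) (he : e < 9 * m + 3) (h : K a e o) :
    o < 9 * (m + 1) + 3 := by
  unfold K at h; omega

theorem K_ne (a e f o p : ℕ) (hef : e ≠ f) (h : K a e o) (h' : K a f p) : o ≠ p := by
  unfold K at h h'; omega

theorem K_rung (a f p : ℕ) (h' : K a f p) : ¬ (9 * a + 6 ≤ p ∧ p < 9 * a + 9) := by
  unfold K at h'; omega

theorem ends_new (m a e f o p w : ℕ) (ha : a ≤ m) (he : e < 9 * m + 3) (hf : f < 9 * m + 3)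
    (hef : e ≠ f) (h : K a e o) (h' : K a f p)
    (hw : w = src (m + 1) o ∨ w = dst (m + 1) o)
    (hw' : src (m + 1) p = w ∨ dst (m + 1) p = w) :
    w = sh a (src m e) ∨ w = sh a (dst m e) := by
  have hp := K_lt m a f p ha hf h'
  have hr := K_rung a f p h'
  rcases h with ⟨h1, rfl⟩ | ⟨⟨h1, h2⟩, h3⟩ | ⟨h1, rfl⟩
  · rw [src_low m a o ha h1, dst_low m a o ha h1]; exact hw
  · rw [src_mid m a e ha h1 h2, dst_mid m a e ha h1 h2]
    have hQ := endQ m a e p ha h1 h2 hp
    have hP := endP m a e p ha h1 h2 hp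
    have n1 := m1 m a e ha h1 h2
    have n2 := m2 m a e ha h1 h2
    have n3 := m3 m a e ha h1 h2
    have n4 := m4 m a e ha h1 h2
    have hpe : p ≠ e ∧ p ≠ e + 3 ∧ p ≠ e + 9 := by
      refine ⟨?_, ?_, ?_⟩ <;> · unfold K at h'; omega
    have hnQ : w ≠ e - 3 * a := by
      intro hh; rw [hh] at hw'
      have := hQ hw'; omega
    have hnP : w ≠ e - 3 * a + 3 := by
      intro hh; rw [hh] at hw'
      have := hP hw'; omega
    rcases h3 with rfl | rfl | rfl
    · rw [n1] at hw; rcases hw with hw | hw
      · exact Or.inl hw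
      · exact absurd hw hnQ
    · rw [n2, n3] at hw; rcases hw with hw | hw
      · exact absurd hw hnQ
      · exact absurd hw hnP
    · rw [n4] at hw; rcases hw with hw | hw
      · exact absurd hw hnP
      · exact Or.inr hw
  · rw [src_high m a e ha h1 he, dst_high m a e ha h1 he]; exact hw

theorem stmtD1 : StmtD1 := by
  intro Y _ _ m a X ha R
  classical
  let arc' : ℕ → Set Y := fun e => if e < 9 * a then R.arc e else
    if e < 9 * a + 3 then R.arc e ∪ R.arc (e + 3) ∪ R.arc (e + 9) else R.arc (e + 9)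
  let pt' : ℕ → Y := fun u => R.pt (sh a u)
  have hlow : ∀ e, e < 9 * a → arc' e = R.arc e := fun e h => if_pos h
  have hmid : ∀ e, 9 * a ≤ e → e < 9 * a + 3 → arc' e = R.arc e ∪ R.arc (e + 3) ∪ R.arc (e + 9) := by
    intro e h h2
    show (if e < 9 * a then _ else _) = _
    rw [if_neg (by omega), if_pos h2]
  have hhigh : ∀ e, 9 * a + 3 ≤ e → arc' e = R.arc (e + 9) := by
    intro e h
    show (if e < 9 * a then _ else _) = _
    rw [if_neg (by omega), if_neg (by omega)]
  have hK : ∀ e x, x ∈ arc' e → ∃ o, K a e o ∧ x ∈ R.arc o := by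
    intro e x hx
    rcases lt_or_ge e (9 * a) with h | h
    · rw [hlow e h] at hx
      exact ⟨e, Or.inl ⟨h, rfl⟩, hx⟩
    · rcases lt_or_ge e (9 * a + 3) with h2 | h2
      · rw [hmid e h h2] at hx
        rcases hx with (hx | hx) | hx
        · exact ⟨e, Or.inr (Or.inl ⟨⟨h, h2⟩, Or.inl rfl⟩), hx⟩
        · exact ⟨e + 3, Or.inr (Or.inl ⟨⟨h, h2⟩, Or.inr (Or.inl rfl)⟩), hx⟩
        · exact ⟨e + 9, Or.inr (Or.inl ⟨⟨h, h2⟩, Or.inr (Or.inr rfl)⟩), hx⟩
      · rw [hhigh e h2] at hx
        exact ⟨e + 9, Or.inr (Or.inr ⟨h2, rfl⟩), hx⟩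
  have hK' : ∀ e o, K a e o → R.arc o ⊆ arc' e := by
    rintro e o (⟨h, rfl⟩ | ⟨⟨h, h2⟩, h3⟩ | ⟨h, rfl⟩)
    · rw [hlow _ h]
    · rw [hmid e h h2]
      rcases h3 with rfl | rfl | rfl
      · exact fun x hx => Or.inl (Or.inl hx)
      · exact fun x hx => Or.inl (Or.inr hx)
      · exact fun x hx => Or.inr hx
    · rw [hhigh e h]
  have hinj : ∀ u < 6 * (m + 1) + 2, ∀ v < 6 * (m + 1) + 2, R.pt u = R.pt v → u = v := R.pt_inj
  have hsub : ∀ o < 9 * (m + 1) + 3, R.arc o ⊆ X := by
    intro o ho x hx
    rw [R.union]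
    exact mem_biUnion (Finset.mem_coe.2 (Finset.mem_range.2 ho)) hx
  have hends : ∀ o < 9 * (m + 1) + 3, R.pt (src (m + 1) o) ∈ R.arc o ∧ R.pt (dst (m + 1) o) ∈ R.arc o := by
    intro o ho
    obtain ⟨h, h0, h1⟩ := R.isArc o ho
    rw [← h0, ← h1]
    exact ⟨(h 0).2, (h 1).2⟩
  refine ⟨⋃ e ∈ Finset.range (9 * m + 3), arc' e, ?_, ⟨⟨pt', arc', ?_, ?_, ?_, rfl⟩⟩, ?_⟩
  · intro x hx
    simp only [mem_iUnion, Finset.mem_range] at hx
    obtain ⟨e, he, hx⟩ := hx
    obtain ⟨o, ho, hx⟩ := hK e x hx
    exact hsub o (K_lt m a e o ha he ho) hx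
  · intro u hu v hv huv
    have h1 : sh a u < 6 * (m + 1) + 2 := by unfold sh; split_ifs <;> omega
    have h2 : sh a v < 6 * (m + 1) + 2 := by unfold sh; split_ifs <;> omega
    have := hinj _ h1 _ h2 huv
    unfold sh at this
    split_ifs at this <;> omega
  · intro e he
    rcases lt_or_ge e (9 * a) with h | h
    · rw [hlow e h]
      show ArcBetween _ (R.pt (sh a (src m e))) (R.pt (sh a (dst m e)))
      rw [src_low m a e ha h, dst_low m a e ha h]
      exact R.isArc e (by omega)
    · rcases lt_or_ge e (9 * a + 3) with h2 | h2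
      · rw [hmid e h h2]
        show ArcBetween _ (R.pt (sh a (src m e))) (R.pt (sh a (dst m e)))
        rw [src_mid m a e ha h h2, dst_mid m a e ha h h2]
        have n1 := m1 m a e ha h h2
        have n2 := m2 m a e ha h h2
        have n3 := m3 m a e ha h h2
        have n4 := m4 m a e ha h h2
        have a1 := R.isArc e (by omega)
        have a2 := R.isArc (e + 3) (by omega)
        have a3 := R.isArc (e + 9) (by omega)
        rw [n1] at a1
        rw [n2, n3] at a2
        rw [n4] at a3
        have i1 : R.arc e ∩ R.arc (e + 3) = {R.pt (e - 3 * a)} := by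
          apply Subset.antisymm
          · intro x hx
            have := R.inter e (by omega) (e + 3) (by omega) (by omega) hx
            rw [n1, n2, n3] at this
            obtain ⟨h3, h4⟩ := this
            rcases h4 with h4 | h4
            · exact h4
            · exfalso
              rw [mem_singleton_iff] at h4
              rcases h3 with h3 | h3
              · rw [h4] at h3
                have := hinj _ (by omega) _ (src_lt (m + 1) e (by omega)) h3
                rcases endP m a e e ha h h2 (by omega) (Or.inl this.symm) with h5 | h5 | h5 <;> omega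
              · rw [mem_singleton_iff, h4] at h3
                have := hinj _ (by omega) _ (by omega) h3
                omega
          · rw [singleton_subset_iff]
            have e1 := (hends e (by omega)).2
            have e2 := (hends (e + 3) (by omega)).1
            rw [n1] at e1
            rw [n2] at e2
            exact ⟨e1, e2⟩
        have i2 : (R.arc e ∪ R.arc (e + 3)) ∩ R.arc (e + 9) = {R.pt (e - 3 * a + 3)} := by
          apply Subset.antisymm
          · rintro x ⟨hx | hx, hx'⟩
            · exfalso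
              have := R.inter e (by omega) (e + 9) (by omega) (by omega) ⟨hx, hx'⟩
              obtain ⟨h3, h4⟩ := this
              rw [n1] at h3
              rw [n4] at h4
              have hl1 := src_lt (m + 1) e (by omega)
              have hl2 := dst_lt (m + 1) (e + 9) (by omega)
              rcases h3 with h3 | h3 <;> rcases h4 with h4 | h4
              · rw [h3] at h4
                have := hinj _ hl1 _ (by omega) h4
                rcases endP m a e e ha h h2 (by omega) (Or.inl this) with h5 | h5 | h5 <;> omega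
              · rw [mem_singleton_iff] at h4
                rw [h3] at h4
                have := hinj _ hl1 _ hl2 h4
                revert this
                unfold src dst vP vQ
                split_ifs <;> omega
              · rw [mem_singleton_iff] at h3
                rw [h3] at h4
                have := hinj _ (by omega) _ (by omega) h4
                omega
              · rw [mem_singleton_iff] at h3 h4
                rw [h3] at h4
                have := hinj _ (by omega) _ hl2 h4
                rcases endQ m a e (e + 9) ha h h2 (by omega) (Or.inr this.symm) with h5 | h5 | h5 <;> omega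
            · have := R.inter (e + 3) (by omega) (e + 9) (by omega) (by omega) ⟨hx, hx'⟩
              rw [n2, n3, n4] at this
              obtain ⟨h3, h4⟩ := this
              rcases h3 with h3 | h3
              · exfalso
                have hl2 := dst_lt (m + 1) (e + 9) (by omega)
                rcases h4 with h4 | h4
                · rw [h3] at h4
                  have := hinj _ (by omega) _ (by omega) h4
                  omega
                · rw [mem_singleton_iff, h3] at h4
                  have := hinj _ (by omega) _ hl2 h4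
                  rcases endQ m a e (e + 9) ha h h2 (by omega) (Or.inr this.symm) with h5 | h5 | h5 <;> omega
              · exact h3
          · rw [singleton_subset_iff]
            have e1 := (hends (e + 3) (by omega)).2
            have e2 := (hends (e + 9) (by omega)).1
            rw [n3] at e1
            rw [n4] at e2
            exact ⟨Or.inr e1, e2⟩
        exact concat (concat a1 a2 i1) a3 i2
      · rw [hhigh e h2]
        show ArcBetween _ (R.pt (sh a (src m e))) (R.pt (sh a (dst m e)))
        rw [src_high m a e ha h2 he, dst_high m a e ha h2 he]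
        exact R.isArc (e + 9) (by omega)
  · intro e he f hf hef x hx
    obtain ⟨o, ho, hxo⟩ := hK e x hx.1
    obtain ⟨p, hp, hxp⟩ := hK f x hx.2
    have hol := K_lt m a e o ha he ho
    have hpl := K_lt m a f p ha hf hp
    have hop := K_ne a e f o p hef ho hp
    obtain ⟨h1, h2⟩ := R.inter o hol p hpl hop ⟨hxo, hxp⟩
    obtain ⟨w, hw, hw1⟩ : ∃ w, (w = src (m + 1) o ∨ w = dst (m + 1) o) ∧ x = R.pt w := by
      rcases h1 with h1 | h1
      · exact ⟨_, Or.inl rfl, h1⟩
      · exact ⟨_, Or.inr rfl, h1⟩
    obtain ⟨v, hv, hv1⟩ : ∃ w, (w = src (m + 1) p ∨ w = dst (m + 1) p) ∧ x = R.pt w := by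
      rcases h2 with h2 | h2
      · exact ⟨_, Or.inl rfl, h2⟩
      · exact ⟨_, Or.inr rfl, h2⟩
    have hwl : w < 6 * (m + 1) + 2 := by
      rcases hw with rfl | rfl
      · exact src_lt _ _ hol
      · exact dst_lt _ _ hol
    have hvl : v < 6 * (m + 1) + 2 := by
      rcases hv with rfl | rfl
      · exact src_lt _ _ hpl
      · exact dst_lt _ _ hpl
    have hwv : w = v := hinj _ hwl _ hvl (by rw [← hw1, hv1])
    subst hwv
    have c1 := ends_new m a e f o p w ha he hf hef ho hp hw (hv.imp Eq.symm Eq.symm)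
    have c2 := ends_new m a f e p o w ha hf he hef.symm hp ho hv (hw.imp Eq.symm Eq.symm)
    show x ∈ ({R.pt (sh a (src m e)), R.pt (sh a (dst m e))} : Set Y) ∩
      {R.pt (sh a (src m f)), R.pt (sh a (dst m f))}
    rw [hw1]
    refine ⟨?_, ?_⟩
    · rcases c1 with c1 | c1
      · rw [c1]; exact Or.inl rfl
      · rw [c1]; exact Or.inr rfl
    · rcases c2 with c2 | c2
      · rw [c2]; exact Or.inl rfl
      · rw [c2]; exact Or.inr rfl
  · intro e he hne x hx
    have hmem : ∀ f o, f < 9 * m + 3 → K a f o → R.arc o ⊆ ⋃ e ∈ Finset.range (9 * m + 3), arc' e := by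
      intro f o hf hKo y hy
      exact mem_biUnion (Finset.mem_coe.2 (Finset.mem_range.2 hf)) (hK' f o hKo hy)
    have hn0 := hne 0 (by omega)
    have hn1 := hne 1 (by omega)
    have hn2 := hne 2 (by omega)
    by_cases c1 : e < 9 * a
    · exact hmem e e (by omega) (Or.inl ⟨c1, rfl⟩) hx
    · by_cases c2 : e < 9 * a + 3
      · exact hmem e e (by omega) (Or.inr (Or.inl ⟨⟨by omega, c2⟩, Or.inl rfl⟩)) hx
      · by_cases c3 : e < 9 * a + 6
        · refine hmem (e - 3) e (by omega) (Or.inr (Or.inl ⟨⟨by omega, by omega⟩, ?_⟩)) hx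
          right; left; omega
        · by_cases c4 : e < 9 * a + 12
          · refine hmem (e - 9) e (by omega) (Or.inr (Or.inl ⟨⟨by omega, by omega⟩, ?_⟩)) hx
            right; right; omega
          · refine hmem (e - 9) e (by omega) (Or.inr (Or.inr ⟨by omega, ?_⟩)) hx
            omega

end Pool.Agent.Helper45.ACD1
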