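import Pool.Agent.Helper7.KS2.Defs
import Pool.Agent.Helper41.Girth4.Prob

/-!
# Packet B1 for MP_c4bd07_co: the mean of the number of saving colours
-/

set_option autoImplicit false
open Classical

namespace Pool.Agent.Helper45.KS2

open Pool.Agent.Helper41.Girth4
open Pool.Agent.Helper7.KS2

/-- Probability of a pattern: the value `a` on `S`, and not the value `a` on `T`. -/
theorem Pr_pattern {V X : Type} [Fintype V] [Fintype X] [Nonempty X] (S T : Finset V)
    (hST : Disjoint S T) (a : X) :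
    Pr (fun ω : V → X => (∀ i ∈ S, ω i = a) ∧ ∀ i ∈ T, ω i ≠ a)
      = (1 / (Fintype.card X : ℝ)) ^ S.card * (1 - 1 / (Fintype.card X : ℝ)) ^ T.card := by
  have hp : Pr (fun x : X => x = a) = 1 / (Fintype.card X : ℝ) := by
    rw [Pr_eq_card]
    have : (Finset.univ.filter (fun x : X => x = a)) = {a} := by
      ext x
      simp
    rw [this, Finset.card_singleton, Nat.cast_one]
  have hq : Pr (fun x : X => x ≠ a) = 1 - 1 / (Fintype.card X : ℝ) := by
    rw [← hp]
    exact Pr_not _
  have h1 : Pr (fun ω : V → X => (∀ i ∈ S, ω i = a) ∧ ∀ i ∈ T, ω i ≠ a)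
      = Pr (fun ω : V → X => ∀ i, (fun (i : V) (x : X) => (i ∈ S → x = a) ∧ (i ∈ T → x ≠ a)) i
        (ω i)) := by
    apply Pr_congr
    intro ω
    constructor
    · rintro ⟨h, h'⟩ i
      exact ⟨h i, h' i⟩
    · intro h
      exact ⟨fun i hi => (h i).1 hi, fun i hi => (h i).2 hi⟩
  refine h1.trans ((Pr_pi (fun (i : V) (x : X) => (i ∈ S → x = a) ∧ (i ∈ T → x ≠ a))).trans ?_)
  have h2 : ∀ i : V, Pr ((fun (i : V) (x : X) => (i ∈ S → x = a) ∧ (i ∈ T → x ≠ a)) i)
      = (if i ∈ S then 1 / (Fintype.card X : ℝ) else 1)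
        * (if i ∈ T then 1 - 1 / (Fintype.card X : ℝ) else 1) := by
    intro i
    by_cases hi : i ∈ S
    · have hi' : i ∉ T := Finset.disjoint_left.1 hST hi
      simp only [hi, hi', forall_true_left, false_imp_iff, and_true, if_true, if_false, mul_one]
      exact hp
    · by_cases hi' : i ∈ T
      · simp only [hi, hi', forall_true_left, false_imp_iff, true_and, if_true, if_false, one_mul]
        exact hq
      · simp only [hi, hi', false_imp_iff, and_self, if_false, mul_one]
        exact Pr_true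
  rw [Finset.prod_congr rfl fun i _ => h2 i, Finset.prod_mul_distrib]
  congr 1
  · rw [Finset.prod_ite_mem, Finset.univ_inter, Finset.prod_const]
  · rw [Finset.prod_ite_mem, Finset.univ_inter, Finset.prod_const]

/-- Lower bound for the probability of a pattern. -/
theorem Pr_pattern_ge {V X : Type} [Fintype V] [Fintype X] [Nonempty X] (S T : Finset V)
    (hST : Disjoint S T) (a : X) (hT : (T.card : ℝ) * (1 / (Fintype.card X : ℝ)) ≤ 1 / 2) :
    (1 / (Fintype.card X : ℝ)) ^ S.card / 2
      ≤ Pr (fun ω : V → X => (∀ i ∈ S, ω i = a) ∧ ∀ i ∈ T, ω i ≠ a) := by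
  rw [Pr_pattern S T hST a]
  have hc : (1 : ℝ) ≤ Fintype.card X := by exact_mod_cast Fintype.card_pos
  have hp : 1 / (Fintype.card X : ℝ) ≤ 1 := by
    rw [div_le_one (by linarith)]
    exact hc
  have hp0 : 0 ≤ 1 / (Fintype.card X : ℝ) := by positivity
  have h1 : 1 + (T.card : ℝ) * (-(1 / (Fintype.card X : ℝ)))
      ≤ (1 + -(1 / (Fintype.card X : ℝ))) ^ T.card :=
    one_add_mul_le_pow (by linarith) _
  have h2 : (1 : ℝ) / 2 ≤ (1 - 1 / (Fintype.card X : ℝ)) ^ T.card := by
    have : (1 - 1 / (Fintype.card X : ℝ)) = 1 + -(1 / (Fintype.card X : ℝ)) := by ring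
    rw [this]
    linarith
  calc (1 / (Fintype.card X : ℝ)) ^ S.card / 2 = (1 / (Fintype.card X : ℝ)) ^ S.card * (1 / 2) := by
        ring
    _ ≤ _ := mul_le_mul_of_nonneg_left h2 (by positivity)

/-- Double counting of witnesses. -/
theorem mean_ge {V X ι C : Type} [Fintype V] [Fintype X] [Nonempty X] [Fintype C]
    (R : Finset ι) (A : ι → Finset C) (Ev : ι → C → (V → X) → Prop) (sv : (V → X) → C → Prop)
    (K : ℕ) (m q : ℝ) (hq : 0 ≤ q)
    (h1 : ∀ r ∈ R, ∀ α ∈ A r, ∀ ω, Ev r α ω → sv ω α)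
    (h2 : ∀ α ω (W : Finset ι), W ⊆ R → (∀ r ∈ W, Ev r α ω) → W.card ≤ K)
    (h3 : ∀ r ∈ R, ∀ α, q ≤ Pr (Ev r α))
    (h4 : ∀ r ∈ R, m ≤ ((A r).card : ℝ)) :
    (R.card : ℝ) * m * q
      ≤ K * ((∑ ω : V → X, ((Finset.univ.filter (fun α => sv ω α)).card : ℝ))
          / (Fintype.card (V → X) : ℝ)) := by
  have hpt : ∀ ω : V → X, ∑ r ∈ R, ∑ α ∈ A r, (if Ev r α ω then (1 : ℝ) else 0)
      ≤ K * ((Finset.univ.filter (fun α => sv ω α)).card : ℝ) := by
    intro ω
    have e1 : ∑ r ∈ R, ∑ α ∈ A r, (if Ev r α ω then (1 : ℝ) else 0)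
        = ∑ α : C, ∑ r ∈ R, (if α ∈ A r ∧ Ev r α ω then (1 : ℝ) else 0) := by
      rw [Finset.sum_comm' (s := Finset.univ) (t := fun _ => R) (s' := fun _ => Finset.univ)
        (t' := R) (by simp)]
      refine Finset.sum_congr rfl fun r _ => ?_
      rw [← Finset.sum_filter, ← Finset.sum_filter]
      refine Finset.sum_congr ?_ fun _ _ => rfl
      ext α
      simp
    rw [e1, Finset.card_filter]
    push_cast
    rw [Finset.mul_sum]
    refine Finset.sum_le_sum fun α _ => ?_
    by_cases hs : sv ω α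
    · rw [if_pos hs, mul_one, ← Finset.sum_filter, Finset.sum_const, nsmul_eq_mul, mul_one]
      have : (R.filter (fun r => α ∈ A r ∧ Ev r α ω)).card ≤ K := by
        refine h2 α ω _ (Finset.filter_subset _ _) ?_
        intro r hr
        rw [Finset.mem_filter] at hr
        exact hr.2.2
      exact_mod_cast this
    · rw [if_neg hs, mul_zero]
      refine le_of_eq (Finset.sum_eq_zero fun r hr => ?_)
      rw [if_neg]
      rintro ⟨ha, he⟩
      exact hs (h1 r hr α ha ω he)
  have hcard : (0 : ℝ) < (Fintype.card (V → X) : ℝ) := by exact_mod_cast Fintype.card_pos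
  calc (R.card : ℝ) * m * q = ∑ r ∈ R, m * q := by
        rw [Finset.sum_const, nsmul_eq_mul]
        ring
    _ ≤ ∑ r ∈ R, ∑ α ∈ A r, Pr (Ev r α) := by
        refine Finset.sum_le_sum fun r hr => ?_
        calc m * q ≤ ((A r).card : ℝ) * q := mul_le_mul_of_nonneg_right (h4 r hr) hq
          _ = ∑ α ∈ A r, q := by rw [Finset.sum_const, nsmul_eq_mul]
          _ ≤ _ := Finset.sum_le_sum fun α _ => h3 r hr α
    _ = (∑ ω : V → X, ∑ r ∈ R, ∑ α ∈ A r, (if Ev r α ω then (1 : ℝ) else 0))
          / (Fintype.card (V → X) : ℝ) := by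
        have e2 : ∀ r α, Pr (Ev r α) = (∑ ω : V → X, if Ev r α ω then (1 : ℝ) else 0)
            / (Fintype.card (V → X) : ℝ) := fun r α => Pr_eq_sum _
        simp only [e2]
        rw [Finset.sum_comm, Finset.sum_div]
        refine Finset.sum_congr rfl fun r _ => ?_
        rw [Finset.sum_comm, Finset.sum_div]
    _ ≤ (∑ ω : V → X, K * ((Finset.univ.filter (fun α => sv ω α)).card : ℝ))
          / (Fintype.card (V → X) : ℝ) := by
        gcongr with ω _
        exact hpt ω
    _ = _ := by
        rw [← Finset.mul_sum, mul_div_assoc]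

theorem stmtMean : StmtMean := by
  intro θ Q M c hθ hθ1 hQ hM hc V _ G L hdeg v hrich ω₀ hout
  have hMr : (1 : ℝ) ≤ M := by exact_mod_cast hM
  have hM0 : (0 : ℝ) < M := by linarith
  -- the colours which are blocked at `u`
  set F : V → Finset (Fin c) := fun u =>
    (Finset.univ.filter (fun z => G.Adj u z ∧ ¬ G.Adj v z ∧ (ω₀ z).2 = 0)).image
      (fun z => (ω₀ z).1) with hF
  have hFc : ∀ u, G.Adj v u → ((F u).card : ℝ) ≤ θ * M / 8 := by
    intro u hu
    refine le_trans ?_ (hout u hu)
    exact_mod_cast Finset.card_image_le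
  have hFn : ∀ u α, α ∉ F u → ∀ z, G.Adj u z → ¬ G.Adj v z → ω₀ z ≠ (α, 0) := by
    intro u α hα z h1 h2 h3
    apply hα
    rw [hF]
    simp only [Finset.mem_image, Finset.mem_filter, Finset.mem_univ, true_and]
    exact ⟨z, ⟨h1, h2, by rw [h3]⟩, by rw [h3]⟩
  set N : Finset V := Finset.univ.filter (fun w => G.Adj v w) with hN
  have hNc : (N.card : ℝ) ≤ 3 * M := by
    have := hdeg v
    unfold dg at this
    exact_mod_cast this
  -- the number of colours
  have hcθ : θ * M ≤ c := by
    rcases hrich with h | h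
    · unfold richB at h
      have h1 : 0 < θ * (M : ℝ) ^ 2 := by positivity
      have h2 := lt_of_lt_of_le h1 h
      have h3 : 0 < (Finset.univ.filter (fun p : V × V => G.Adj v p.1 ∧ G.Adj v p.2 ∧
        p.1 ≠ p.2 ∧ ¬ G.Adj p.1 p.2 ∧ θ * M ≤ (((L p.1 ∩ L p.2).card : ℕ) : ℝ))).card := by
        exact_mod_cast h2
      obtain ⟨p, hp⟩ := Finset.card_pos.1 h3
      rw [Finset.mem_filter] at hp
      refine le_trans hp.2.2.2.2.2 ?_
      exact_mod_cast (Finset.card_le_univ _).trans (by simp)
    · unfold richC at h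
      have h1 : 0 < θ * (M : ℝ) := by positivity
      have h2 := lt_of_lt_of_le h1 h
      have h3 : 0 < (Finset.univ.filter (fun u : V => G.Adj v u ∧
        θ * M ≤ (((L u \ L v).card : ℕ) : ℝ))).card := by
        exact_mod_cast h2
      obtain ⟨p, hp⟩ := Finset.card_pos.1 h3
      rw [Finset.mem_filter] at hp
      refine le_trans hp.2.2 ?_
      exact_mod_cast (Finset.card_le_univ _).trans (by simp)
  have hc0 : (0 : ℝ) < c := lt_of_lt_of_le (by positivity) hcθ
  have hcpos : 0 < c := by exact_mod_cast hc0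
  have hne : Nonempty (Fin c × Fin (Q + 1)) := ⟨(⟨0, hcpos⟩, 0)⟩
  have hX : (Fintype.card (Fin c × Fin (Q + 1)) : ℝ) = c * (Q + 1) := by
    simp
  have hQ0 : (0 : ℝ) < (Q : ℝ) + 1 := by positivity
  set p : ℝ := 1 / (Fintype.card (Fin c × Fin (Q + 1)) : ℝ) with hp
  have hp' : p = 1 / (c * (Q + 1)) := by rw [hp, hX]
  have hp0 : 0 < p := by rw [hp']; positivity
  have hnp : (N.card : ℝ) * p ≤ 1 / 2 := by
    rw [hp', mul_one_div, div_le_iff₀ (by positivity)]
    have : θ * M * ((Q : ℝ) + 1) ≤ c * ((Q : ℝ) + 1) := by gcongr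
    have h2 : 48 * (M : ℝ) ≤ θ * M * ((Q : ℝ) + 1) := by nlinarith
    linarith
  have hp2 : 1 / (2 * M * ((Q : ℝ) + 1)) ≤ p := by
    rw [hp']
    apply one_div_le_one_div_of_le (by positivity)
    have : (c : ℝ) ≤ 2 * M := by exact_mod_cast hc
    gcongr
  have hmgN : ∀ (ω : V → Fin c × Fin (Q + 1)) z, G.Adj v z → mg G v ω ω₀ z = ω z := by
    intro ω z hz
    simp [mg, hz]
  have hmgO : ∀ (ω : V → Fin c × Fin (Q + 1)) z, ¬ G.Adj v z → mg G v ω ω₀ z = ω₀ z := by
    intro ω z hz
    simp [mg, hz]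
  rcases hrich with hB | hC
  · -- many pairs
    set R : Finset (V × V) := Finset.univ.filter (fun p : V × V => G.Adj v p.1 ∧ G.Adj v p.2 ∧
      p.1 ≠ p.2 ∧ ¬ G.Adj p.1 p.2 ∧ θ * M ≤ (((L p.1 ∩ L p.2).card : ℕ) : ℝ)) with hR
    have hRc : θ * (M : ℝ) ^ 2 ≤ (R.card : ℝ) := hB
    set A : V × V → Finset (Fin c) := fun r => ((L r.1 ∩ L r.2) \ F r.1) \ F r.2 with hA
    set Ev : V × V → Fin c → (V → Fin c × Fin (Q + 1)) → Prop := fun r α ω =>
      (∀ i ∈ ({r.1, r.2} : Finset V), ω i = (α, 0)) ∧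
        ∀ i ∈ N \ ({r.1, r.2} : Finset V), ω i ≠ (α, 0) with hEv
    have key := mean_ge R A Ev (fun ω α => sav G L (mg G v ω ω₀) v α) 2 (θ * M / 2) (p ^ 2 / 2)
      (by positivity) ?_ ?_ ?_ ?_
    · have h5 : θ ^ 2 / (32 * ((Q : ℝ) + 1) ^ 2) * M * 2 ≤ (R.card : ℝ) * (θ * M / 2) * (p ^ 2 / 2) := by
        have h6 : (1 / (2 * M * ((Q : ℝ) + 1))) ^ 2 ≤ p ^ 2 := by gcongr
        calc θ ^ 2 / (32 * ((Q : ℝ) + 1) ^ 2) * M * 2
            = (θ * (M : ℝ) ^ 2) * (θ * M / 2) * ((1 / (2 * M * ((Q : ℝ) + 1))) ^ 2 / 2) := by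
              field_simp
              ring
          _ ≤ (R.card : ℝ) * (θ * M / 2) * (p ^ 2 / 2) := by gcongr
      have h7 := h5.trans key
      have h8 : (θ ^ 2 / (32 * ((Q : ℝ) + 1) ^ 2) * M) * 2 ≤
          ((∑ ω : V → Fin c × Fin (Q + 1), (nsav G L (mg G v ω ω₀) v : ℝ))
          / (Fintype.card (V → Fin c × Fin (Q + 1)) : ℝ)) * 2 := by
        refine h7.trans (le_of_eq ?_)
        unfold nsav
        push_cast
        ring
      linarith
    · rintro ⟨u, w⟩ hr α hα ω ⟨he1, he2⟩
      rw [hR, Finset.mem_filter] at hr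
      obtain ⟨_, hvu, hvw, huw, hnuw, _⟩ := hr
      simp only [hA, Finset.mem_sdiff, Finset.mem_inter] at hα
      simp only at hvu hvw huw hnuw
      refine Or.inl ⟨u, w, huw, hvu, hvw, hnuw, ⟨?_, hα.1.1.1⟩, ⟨?_, hα.1.1.2⟩, ?_, ?_⟩
      · rw [hmgN _ _ hvu]; exact he1 u (by simp)
      · rw [hmgN _ _ hvw]; exact he1 w (by simp)
      · intro z hz hcz
        by_contra hcon
        push Not at hcon
        refine he2 z ?_ ?_
        · simp only [hN, Finset.mem_sdiff, Finset.mem_filter, Finset.mem_univ, true_and,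
            Finset.mem_insert, Finset.mem_singleton, not_or]
          exact ⟨hz, hcon⟩
        · rw [← hmgN ω z hz]; exact hcz.1
      · intro z hz hnz hcz
        have h9 : ω₀ z = (α, 0) := by rw [← hmgO ω z hnz]; exact hcz.1
        rcases hz with hz | hz
        · exact hFn u α hα.1.2 z hz hnz h9
        · exact hFn w α hα.2 z hz hnz h9
    · intro α ω W hWR hW
      rcases W.eq_empty_or_nonempty with hemp | ⟨⟨u, w⟩, hr⟩
      · rw [hemp]; simp
      · have hr0 := hWR hr
        rw [hR, Finset.mem_filter] at hr0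
        obtain ⟨_, hvu, hvw, huw, _, _⟩ := hr0
        obtain ⟨he1, he2⟩ := hW _ hr
        have hsub : W ⊆ {(u, w), (w, u)} := by
          rintro ⟨u', w'⟩ hr'
          have hr0' := hWR hr'
          rw [hR, Finset.mem_filter] at hr0'
          obtain ⟨_, hvu', hvw', huw', _, _⟩ := hr0'
          obtain ⟨he1', he2'⟩ := hW _ hr'
          have hmem : ∀ z, G.Adj v z → ω z = (α, 0) → z = u ∨ z = w := by
            intro z hz hz2
            by_contra hcon
            push Not at hcon
            refine he2 z ?_ hz2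
            simp only [hN, Finset.mem_sdiff, Finset.mem_filter, Finset.mem_univ, true_and,
              Finset.mem_insert, Finset.mem_singleton, not_or]
            exact ⟨hz, hcon⟩
          have h1 := hmem u' hvu' (he1' u' (by simp))
          have h2 := hmem w' hvw' (he1' w' (by simp))
          simp only at huw'
          simp only [Finset.mem_insert, Finset.mem_singleton, Prod.mk.injEq]
          rcases h1 with rfl | rfl <;> rcases h2 with rfl | rfl
          · exact absurd rfl huw'
          · exact Or.inl ⟨rfl, rfl⟩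
          · exact Or.inr ⟨rfl, rfl⟩
          · exact absurd rfl huw'
        exact (Finset.card_le_card hsub).trans (Finset.card_le_two)
    · rintro ⟨u, w⟩ hr α
      rw [hR, Finset.mem_filter] at hr
      obtain ⟨_, hvu, hvw, huw, hnuw, _⟩ := hr
      have h1 := Pr_pattern_ge (V := V) ({u, w} : Finset V) (N \ ({u, w} : Finset V))
        Finset.disjoint_sdiff ((α, 0) : Fin c × Fin (Q + 1)) (by
          refine le_trans ?_ hnp
          rw [← hp]
          gcongr
          exact Finset.sdiff_subset)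
      rw [Finset.card_pair huw] at h1
      exact h1
    · rintro ⟨u, w⟩ hr
      rw [hR, Finset.mem_filter] at hr
      obtain ⟨_, hvu, hvw, huw, hnuw, hL⟩ := hr
      simp only at hL
      have h1 : (L u ∩ L w).card ≤ (A (u, w)).card + (F u).card + (F w).card := by
        have h2 : L u ∩ L w ⊆ (A (u, w)) ∪ F u ∪ F w := by
          intro α hα
          simp only [hA, Finset.mem_union, Finset.mem_sdiff]
          by_cases h3 : α ∈ F u
          · exact Or.inl (Or.inr h3)
          · by_cases h4 : α ∈ F w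
            · exact Or.inr h4
            · exact Or.inl (Or.inl ⟨⟨hα, h3⟩, h4⟩)
        refine (Finset.card_le_card h2).trans ((Finset.card_union_le _ _).trans ?_)
        have := Finset.card_union_le (A (u, w)) (F u)
        omega
      have h2 : ((L u ∩ L w).card : ℝ) ≤ (A (u, w)).card + (F u).card + (F w).card := by
        exact_mod_cast h1
      have h3 := hFc u hvu
      have h4 := hFc w hvw
      have : 0 < θ * M := by positivity
      linarith
  · -- many vertices with different lists
    set R : Finset V := Finset.univ.filter (fun u : V => G.Adj v u ∧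
      θ * M ≤ (((L u \ L v).card : ℕ) : ℝ)) with hR
    have hRc : θ * (M : ℝ) ≤ (R.card : ℝ) := hC
    set A : V → Finset (Fin c) := fun r => (L r \ L v) \ F r with hA
    set Ev : V → Fin c → (V → Fin c × Fin (Q + 1)) → Prop := fun r α ω =>
      (∀ i ∈ ({r} : Finset V), ω i = (α, 0)) ∧
        ∀ i ∈ N \ ({r} : Finset V), ω i ≠ (α, 0) with hEv
    have key := mean_ge R A Ev (fun ω α => sav G L (mg G v ω ω₀) v α) 1 (θ * M / 2) (p / 2)
      (by positivity) ?_ ?_ ?_ ?_
    · have h5 : θ ^ 2 / (32 * ((Q : ℝ) + 1) ^ 2) * M ≤ (R.card : ℝ) * (θ * M / 2) * (p / 2) := by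
        calc θ ^ 2 / (32 * ((Q : ℝ) + 1) ^ 2) * M
            ≤ θ ^ 2 / (8 * ((Q : ℝ) + 1)) * M := by
              gcongr
              · norm_num
              · nlinarith
          _ = (θ * (M : ℝ)) * (θ * M / 2) * ((1 / (2 * M * ((Q : ℝ) + 1))) / 2) := by
              field_simp
              ring
          _ ≤ (R.card : ℝ) * (θ * M / 2) * (p / 2) := by gcongr
      refine (h5.trans key).trans (le_of_eq ?_)
      unfold nsav
      push_cast
      ring
    · rintro u hr α hα ω ⟨he1, he2⟩
      rw [hR, Finset.mem_filter] at hr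
      obtain ⟨_, hvu, _⟩ := hr
      simp only [hA, Finset.mem_sdiff] at hα
      refine Or.inr ⟨hα.1.2, u, hvu, ⟨?_, hα.1.1⟩, ?_, ?_⟩
      · rw [hmgN _ _ hvu]; exact he1 u (by simp)
      · intro z hz hcz
        by_contra hcon
        refine he2 z ?_ ?_
        · simp only [hN, Finset.mem_sdiff, Finset.mem_filter, Finset.mem_univ, true_and,
            Finset.mem_singleton]
          exact ⟨hz, hcon⟩
        · rw [← hmgN ω z hz]; exact hcz.1
      · intro z hz hnz hcz
        have h9 : ω₀ z = (α, 0) := by rw [← hmgO ω z hnz]; exact hcz.1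
        exact hFn u α hα.2 z hz hnz h9
    · intro α ω W hWR hW
      rw [Finset.card_le_one]
      intro u hu u' hu'
      obtain ⟨he1, he2⟩ := hW _ hu
      obtain ⟨he1', he2'⟩ := hW _ hu'
      have hr0' := hWR hu'
      rw [hR, Finset.mem_filter] at hr0'
      obtain ⟨_, hvu', _⟩ := hr0'
      by_contra hcon
      refine he2 u' ?_ (he1' u' (by simp))
      simp only [hN, Finset.mem_sdiff, Finset.mem_filter, Finset.mem_univ, true_and,
        Finset.mem_singleton]
      exact ⟨hvu', fun h => hcon h.symm⟩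
    · rintro u hr α
      have h1 := Pr_pattern_ge (V := V) ({u} : Finset V) (N \ ({u} : Finset V))
        Finset.disjoint_sdiff ((α, 0) : Fin c × Fin (Q + 1)) (by
          refine le_trans ?_ hnp
          rw [← hp]
          gcongr
          exact Finset.sdiff_subset)
      rw [Finset.card_singleton, pow_one] at h1
      exact h1
    · rintro u hr
      rw [hR, Finset.mem_filter] at hr
      obtain ⟨_, hvu, hL⟩ := hr
      have h1 : (L u \ L v).card ≤ (A u).card + (F u).card := by
        have h2 : L u \ L v ⊆ (A u) ∪ F u := by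
          intro α hα
          simp only [hA, Finset.mem_union]
          by_cases h3 : α ∈ F u
          · exact Or.inr h3
          · exact Or.inl (Finset.mem_sdiff.2 ⟨hα, h3⟩)
        exact (Finset.card_le_card h2).trans (Finset.card_union_le _ _)
      have h2 : ((L u \ L v).card : ℝ) ≤ (A u).card + (F u).card := by
        exact_mod_cast h1
      have h3 := hFc u hvu
      have : 0 < θ * M := by positivity
      linarith

end Pool.Agent.Helper45.KS2
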